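import Pool.Agent.H90.STE.Stmts

/-!
# STE, row CT: the contradiction at a near-maximiser
-/

set_option autoImplicit false

namespace Pool.STE

open Finset Real
open Pool.Agent.H49.Ent Pool.Agent.H32.Dense Pool.STK Pool.KA

namespace CTP

theorem cc_nonneg (m : ℕ) : 0 ≤ cc m := by
  unfold cc
  exact mul_nonneg (Nat.cast_nonneg _) (Real.log_nonneg (by norm_num))

/-- The time has at most `J log 2` entropy. -/
theorem CH_T_le {m J : ℕ} (F : Fam m J) {κ : Type} (W : F.Ω → κ) :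
    CH F.p F.T W ≤ J * Real.log 2 := by
  have h := CH_le_card F.isLaw.nonneg F.isLaw.sum_one F.T W (fun _ => Finset.range (2 ^ J))
    (fun ω _ => Finset.mem_range.2 (F.tim ω))
  refine h.trans (le_of_eq ?_)
  rw [Ex_const F.isLaw.sum_one, Finset.card_range]
  push_cast
  rw [Real.log_pow]

/-- The time carries little information about the line. -/
theorem info {m J : ℕ} (F : Fam m J) (e : ℝ) (hT : F.Tm e) (k r s : ℕ) :
    CH F.p (F.D s) (fun ω => (F.L (r * k) ω, F.Z ω)) ≤ CH F.p (F.D s) (bT F k r) + e := by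
  have hp := F.isLaw.nonneg
  have c1 := CH_chain hp (F.D s) F.T (fun ω => (F.L (r * k) ω, F.Z ω))
  have c2 := CH_chain hp F.T (F.D s) (fun ω => (F.L (r * k) ω, F.Z ω))
  have c3 : CH F.p (fun ω => (F.D s ω, F.T ω)) (fun ω => (F.L (r * k) ω, F.Z ω)) =
      CH F.p (fun ω => (F.T ω, F.D s ω)) (fun ω => (F.L (r * k) ω, F.Z ω)) := by
    refine CH_congr hp ?_ ?_ ?_ ?_ <;>
    · intro ω ω' _ _ e
      try simp only [Prod.mk.injEq] at e ⊢
      tauto
  have h2 : CH F.p (F.D s) (fun ω => (F.T ω, (F.L (r * k) ω, F.Z ω))) =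
      CH F.p (F.D s) (bT F k r) := by
    show _ = CH F.p (F.D s) (fun ω => (F.L (r * k) ω, (F.T ω, F.Z ω)))
    refine CH_congr hp ?_ ?_ ?_ ?_ <;>
    · intro ω ω' _ _ e
      try simp only [Prod.mk.injEq] at e ⊢
      tauto
  have h3 : CH F.p F.T (fun ω => (F.l ω, F.Z ω)) ≤
      CH F.p F.T (fun ω => (F.D s ω, (F.L (r * k) ω, F.Z ω))) := by
    apply CH_mono_cond hp
    intro ω ω' _ _ e
    simp only [Prod.mk.injEq] at e ⊢
    have hu : F.u ω = F.u ω' := (Prod.ext_iff.1 e.1).1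
    have hd : F.d ω = F.d ω' := (Prod.ext_iff.1 e.1).2
    refine ⟨?_, ?_, e.2⟩
    · unfold Fam.D
      rw [hd]
    · unfold Fam.L
      rw [hu, hd]
  have h4 := CH_T_le F (fun ω => (F.L (r * k) ω, F.Z ω))
  have h5 : (J : ℝ) * Real.log 2 - e ≤ CH F.p F.T (fun ω => (F.l ω, F.Z ω)) := hT
  rw [h2] at c1
  linarith

theorem Tm_mono {m J : ℕ} (F : Fam m J) {e e' : ℝ} (h : e ≤ e') (hT : F.Tm e) : F.Tm e' := by
  have h5 : (J : ℝ) * Real.log 2 - e ≤ CH F.p F.T (fun ω => (F.l ω, F.Z ω)) := hT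
  show (J : ℝ) * Real.log 2 - e' ≤ CH F.p F.T (fun ω => (F.l ω, F.Z ω))
  linarith

/-- Final algebra. -/
theorem alg {ι : Type} (s : Finset ι) (hs : s.Nonempty) (a K P2 Rk D D' xb hb e' C₁ Lam Lb rk c : ℝ)
    (X h : ι → ℝ) (ha : 1 < a) (hP2 : (s.card : ℝ) = P2) (hPK : P2 ≤ a * K)
    (hX0 : ∀ w ∈ s, 0 ≤ X w) (hX : ∀ w ∈ s, c - D + a * X w ≤ xb) (hc : Rk ≤ c)
    (hh : ∀ w ∈ s, h w ≤ hb) (hhb : 0 ≤ hb) (hDD : D ≤ D' + e') (hC₁ : 0 ≤ C₁)
    (hLam : Lam ≤ Lb) (hLb : 0 ≤ Lb) (hrk : 0 ≤ rk)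
    (hSX : K * D' ≤ ∑ w ∈ s, (X w + C₁ * h w) + C₁ * Lam + rk + C₁) :
    Rk ≤ xb + e' + a * (P2 * (C₁ * hb) + C₁ * Lb + rk + C₁) := by
  have ha0 : 0 < a := by linarith
  have hP1 : 1 ≤ P2 := by
    rw [← hP2]
    exact_mod_cast hs.card_pos
  have hK : 0 < K := by
    by_contra hK
    have : a * K ≤ 0 := mul_nonpos_of_nonneg_of_nonpos ha0.le (by linarith)
    linarith
  set P : ℝ := xb + D - Rk with hP
  have hXP : ∀ w ∈ s, X w ≤ P / a := by
    intro w hw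
    rw [le_div_iff₀ ha0]
    have := hX w hw
    rw [hP]
    linarith
  have hP0 : 0 ≤ P := by
    obtain ⟨w, hw⟩ := hs
    have h1 := hX0 w hw
    have h2 := hX w hw
    have h3 : 0 ≤ a * X w := by positivity
    rw [hP]
    linarith
  have hsum : ∑ w ∈ s, (X w + C₁ * h w) ≤ K * P + P2 * (C₁ * hb) := by
    calc ∑ w ∈ s, (X w + C₁ * h w) ≤ ∑ _w ∈ s, (P / a + C₁ * hb) := by
          apply Finset.sum_le_sum
          intro w hw
          have := mul_le_mul_of_nonneg_left (hh w hw) hC₁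
          have := hXP w hw
          linarith
      _ = P2 * (P / a) + P2 * (C₁ * hb) := by
          rw [Finset.sum_const, nsmul_eq_mul, hP2]
          ring
      _ ≤ K * P + P2 * (C₁ * hb) := by
          have : P2 * (P / a) ≤ K * P := by
            rw [mul_div_assoc', div_le_iff₀ ha0]
            nlinarith
          linarith
  have hY : C₁ * Lam ≤ C₁ * Lb := mul_le_mul_of_nonneg_left hLam hC₁
  set Y : ℝ := P2 * (C₁ * hb) + C₁ * Lb + rk + C₁ with hYd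
  have hY0 : 0 ≤ Y := by positivity
  have h1 : K * (Rk - xb - e') ≤ Y := by
    have h2 : K * (D - e') ≤ K * D' := mul_le_mul_of_nonneg_left (by linarith) hK.le
    have h3 : K * P = K * xb + K * D - K * Rk := by rw [hP]; ring
    nlinarith
  have h2 : 1 ≤ a * K := by linarith
  by_cases h3 : 0 ≤ Rk - xb - e'
  · have h4 : (Rk - xb - e') ≤ a * K * (Rk - xb - e') := by nlinarith
    have h5 : a * (K * (Rk - xb - e')) ≤ a * Y := mul_le_mul_of_nonneg_left h1 ha0.le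
    nlinarith
  · have : 0 ≤ a * Y := by positivity
    linarith

/-- The error terms. -/
theorem err (m : ℕ) (a η ε e e' E2 : ℝ) (N k : ℕ) (ha : 1 < a) (hN : 1 ≤ N)
    (hE : e' ≤ E2 * e) (hE2 : 0 ≤ E2) (G : ℝ)
    (g1 : η * k ≤ G) (g2 : ε * N * k ≤ G) (g3 : (k : ℝ) / N ≤ G) (g4 : e ≤ G) (g5 : 1 ≤ G) :
    B1 m a η ε e' N k / N ≤ (3 + (2 * a + 1) * cc m + a * E2) * G ∧
    B3T m a η ε e' N k / N ≤
      ((2 + m + cc m + E2 + (3 + (2 * a + 1) * cc m + a * E2) + 2 * a * cc m) / (a - 1) +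
        ((3 + (2 * a + 1) * cc m + a * E2) + 2 * a * cc m) / a + cc m) * G := by
  have hN' : (1 : ℝ) ≤ N := by exact_mod_cast hN
  have hN0 : (0 : ℝ) < N := by linarith
  have hc := cc_nonneg m
  set c := cc m with hcdef
  have hk : (0 : ℝ) ≤ k := Nat.cast_nonneg _
  have hm : (0 : ℝ) ≤ m := Nat.cast_nonneg _
  set K1 : ℝ := 3 + (2 * a + 1) * c + a * E2 with hK1
  have ha0 : 0 < a := by linarith
  have hK10 : 0 ≤ K1 := by positivity
  have q1 : (2 * a + 1) * c ≤ (2 * a + 1) * c * G := le_mul_of_one_le_right (by positivity) g5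
  have q2 : a * e' ≤ a * E2 * G := by
    have : e' ≤ E2 * G := hE.trans (mul_le_mul_of_nonneg_left g4 hE2)
    calc a * e' ≤ a * (E2 * G) := mul_le_mul_of_nonneg_left this ha0.le
      _ = a * E2 * G := by ring
  have hB1 : B1 m a η ε e' N k ≤ N * (K1 * G) := by
    unfold B1
    rw [← hcdef]
    have h1 : 2 * η * (N * k) + ε * N * (N * k) + (2 * a * N + 1) * c + a * N * e' ≤
        N * (2 * (η * k) + ε * N * k + (2 * a + 1) * c + a * e') := by
      have : c ≤ N * c := le_mul_of_one_le_left hc hN'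
      nlinarith
    refine h1.trans (mul_le_mul_of_nonneg_left ?_ hN0.le)
    have : K1 * G = 3 * G + (2 * a + 1) * c * G + a * E2 * G := by rw [hK1]; ring
    linarith
  have q3 : 2 * a * c ≤ 2 * a * c * G := le_mul_of_one_le_right (by positivity) g5
  have q4 : c ≤ c * G := le_mul_of_one_le_right hc g5
  set K2 : ℝ := 2 + m + c + E2 + K1 + 2 * a * c with hK2
  have hlog : Real.log 2 ≤ 1 := by
    have := Real.log_le_sub_one_of_pos (show (0 : ℝ) < 2 by norm_num)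
    linarith
  have hlog0 : 0 ≤ Real.log 2 := Real.log_nonneg (by norm_num)
  have hB2 : B2T m a η ε e' N k ≤ N * (K2 * G) := by
    unfold B2T
    rw [← hcdef]
    have h1 : (m : ℝ) * (k * Real.log 2) ≤ N * (m * G) := by
      have h2 : (k : ℝ) * Real.log 2 ≤ k := by
        calc (k : ℝ) * Real.log 2 ≤ k * 1 := mul_le_mul_of_nonneg_left hlog hk
          _ = k := mul_one _
      have h3 : (k : ℝ) ≤ N * G := by
        rw [div_le_iff₀ hN0] at g3
        linarith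
      calc (m : ℝ) * (k * Real.log 2) ≤ m * (N * G) :=
            mul_le_mul_of_nonneg_left (h2.trans h3) hm
        _ = N * (m * G) := by ring
    have h4 : c ≤ N * (c * G) := by
      have : c * G ≤ N * (c * G) := le_mul_of_one_le_left (by positivity) hN'
      linarith
    have h5 : e' ≤ N * (E2 * G) := by
      have h6 : e' ≤ E2 * G := hE.trans (mul_le_mul_of_nonneg_left g4 hE2)
      have h7 : E2 * G ≤ N * (E2 * G) := le_mul_of_one_le_left (by positivity) hN'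
      linarith
    have h8 : 2 * η * (N * k) ≤ N * (2 * G) := by nlinarith
    have h9 : 2 * a * N * c ≤ N * (2 * a * c * G) := by nlinarith
    have : N * (K2 * G) = N * (2 * G) + N * (m * G) + N * (c * G) + N * (E2 * G) +
        N * (K1 * G) + N * (2 * a * c * G) := by rw [hK2]; ring
    linarith
  have ha1 : 0 < a - 1 := by linarith
  have hB3 : B3T m a η ε e' N k ≤ N * ((K2 / (a - 1) + (K1 + 2 * a * c) / a + c) * G) := by
    unfold B3T
    rw [← hcdef]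
    have h1 : B2T m a η ε e' N k / (a - 1) ≤ N * (K2 / (a - 1) * G) := by
      rw [div_le_iff₀ ha1]
      refine hB2.trans (le_of_eq ?_)
      field_simp
    have h2 : (B1 m a η ε e' N k + 2 * a * N * c) / a ≤ N * ((K1 + 2 * a * c) / a * G) := by
      rw [div_le_iff₀ ha0]
      have h3 : 2 * a * N * c ≤ N * (2 * a * c * G) := by nlinarith
      have h4 : N * ((K1 + 2 * a * c) / a * G) * a = N * (K1 * G) + N * (2 * a * c * G) := by
        field_simp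
      rw [h4]
      linarith
    have h3 : N * c ≤ N * (c * G) := mul_le_mul_of_nonneg_left q4 hN0.le
    have : N * ((K2 / (a - 1) + (K1 + 2 * a * c) / a + c) * G) =
        N * (K2 / (a - 1) * G) + N * ((K1 + 2 * a * c) / a * G) + N * (c * G) := by ring
    linarith
  constructor
  · rw [div_le_iff₀ hN0]
    linarith
  · rw [div_le_iff₀ hN0]
    linarith


/-- The estimates for one vertex. -/
theorem vertex (hCO : COStmt) (m n : ℕ) (a : ℝ) (ha : 1 < a) (R η ε ε₁ θ₁ e' : ℝ) (N k : ℕ)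
    (hN : 1 ≤ N) (he'0 : 0 ≤ e')
    (hG1 : GoodT m a (R + η) ε₁ θ₁ k) (hG2 : GoodT m a (R + η) ε₁ θ₁ (N * k))
    (hεN : ε * N ≤ ε₁) (hCe : e' ≤ θ₁ * k)
    (hεs : ε * (N * k) + m * (k * Real.log 2) + 2 * cc m ≤ ε₁ * (N * k))
    (hke : k * Real.log 2 + (N + 1) * e' ≤ θ₁ * (N * k)) (hCe2 : e' ≤ η / 2 * (N * k))
    (F : Fam m (N * k)) (Q : Cub m (N * k) n)
    (hQT : ∀ w, w ⊆ Finset.range n → (Q.ver w).Tm e')
    (hQS : ∀ w, Stk (Q.ver w) ε)
    (hQD : CH F.p (F.D (N * k)) F.Z - e' ≤ CH Q.F.p (Q.F.D (N * k)) Q.F.Z)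
    (hQX : ∀ w, w ⊆ Finset.range n →
      CH Q.F.p ((Q.ver w).X (N * k)) (Q.ver w).W ≤ CH F.p (F.X (N * k)) F.W)
    (hmax : a * CH F.p (F.X (N * k)) F.W + (R - η / 2) * (N * k) ≤ CH F.p (F.D (N * k)) F.Z) :
    ∀ w ∈ (Finset.range n).powerset,
      (∀ r < N, 0 ≤ (R + η) * k + a * (cc m + e') - vT a (Q.ver w) k r) ∧
      ∑ r ∈ Finset.range N, ((R + η) * k + a * (cc m + e') - vT a (Q.ver w) k r) ≤
        B1 m a η ε e' N k ∧
      (∀ r < N, 0 ≤ hT (Q.ver w) k r) ∧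
      ∑ r ∈ Finset.range N, hT (Q.ver w) k r ≤ B3T m a η ε e' N k := by
  intro w hw
  rw [Finset.mem_powerset] at hw
  have ha0 : 0 < a := by linarith
  have h1 : a * CH Q.F.p ((Q.ver w).X (N * k)) (Q.ver w).W ≤
      a * CH F.p (F.X (N * k)) F.W := mul_le_mul_of_nonneg_left (hQX w hw) ha0.le
  refine hCO m a R η ε ε₁ θ₁ e' N k (Q.ver w) ha hN he'0 hG1 hG2 hεN hCe hεs hke
    (hQT w hw) (hQS w) ?_
  have h3 : CH Q.F.p (Q.F.D (N * k)) Q.F.Z =
      CH (Q.ver w).p ((Q.ver w).D (N * k)) (Q.ver w).Z := rfl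
  have h4 : CH Q.F.p ((Q.ver w).X (N * k)) (Q.ver w).W =
      CH (Q.ver w).p ((Q.ver w).X (N * k)) (Q.ver w).W := rfl
  rw [← h3, ← h4]
  nlinarith

/-- The conclusion for one good window. -/
theorem window (m n : ℕ) (a ρ : ℝ) (ha : 1 < a) (hρ : 0 < ρ)
    (hKQ : (2 : ℝ) ^ n ≤ a * KQ n) (C₁ : ℝ) (hC₁ : 0 ≤ C₁) (R η e' : ℝ) (N k r : ℕ)
    (hη : 0 < η) (he'0 : 0 ≤ e') (Q : Cub m (N * k) n)
    (hQT : ∀ w, w ⊆ Finset.range n → (Q.ver w).Tm e') (xb hb Lb : ℝ) (hhb : 0 ≤ hb)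
    (hLb : 0 ≤ Lb)
    (hx : ∀ w ∈ (Finset.range n).powerset,
      (R + η) * k + a * (cc m + e') - vT a (Q.ver w) k r ≤ xb)
    (hh : ∀ w ∈ (Finset.range n).powerset, hT (Q.ver w) k r ≤ hb)
    (hL : ∑ i ∈ Finset.range n, Q.lam i ≤ Lb)
    (hS : KQ n * CH Q.F.p (Q.F.D ((r + 1) * k)) (bT (Q.ver ∅) k r) ≤
      ∑ w ∈ (Finset.range n).powerset, (CH Q.F.p ((Q.ver w).X ((r + 1) * k)) (bT (Q.ver w) k r) +
        C₁ * hT (Q.ver w) k r) +
      C₁ * ∑ i ∈ Finset.range n, Q.lam i + ρ * k + C₁) :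
    R * k ≤ xb + e' + a * (2 ^ n * (C₁ * hb) + C₁ * Lb + ρ * k + C₁) := by
  have ha0 : 0 < a := by linarith
  have hc := cc_nonneg m
  have hcard : (((Finset.range n).powerset.card : ℕ) : ℝ) = 2 ^ n := by
    rw [Finset.card_powerset, Finset.card_range]
    push_cast
    rfl
  have hinfo := info (Q.ver ∅) e' (hQT ∅ (Finset.empty_subset _)) k r ((r + 1) * k)
  have hk0 : (0 : ℝ) ≤ k := Nat.cast_nonneg _
  refine alg (Finset.range n).powerset ⟨∅, Finset.empty_mem_powerset _⟩ a (KQ n) (2 ^ n)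
    (R * k) (CH Q.F.p (Q.F.D ((r + 1) * k)) (fun ω => (Q.F.L (r * k) ω, Q.F.Z ω)))
    (CH Q.F.p (Q.F.D ((r + 1) * k)) (bT (Q.ver ∅) k r))
    xb hb e' C₁ (∑ i ∈ Finset.range n, Q.lam i)
    Lb (ρ * k) ((R + η) * k + a * (cc m + e'))
    (fun w => CH Q.F.p ((Q.ver w).X ((r + 1) * k)) (bT (Q.ver w) k r))
    (fun w => hT (Q.ver w) k r) ha hcard hKQ
    (fun w _ => CH_nonneg Q.F.isLaw.nonneg _ _) ?_ ?_ hh hhb hinfo hC₁ hL hLb (by positivity) hS
  · intro w hw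
    have h2 : vT a (Q.ver w) k r =
        CH Q.F.p (Q.F.D ((r + 1) * k)) (fun ω => (Q.F.L (r * k) ω, Q.F.Z ω)) -
        a * CH Q.F.p ((Q.ver w).X ((r + 1) * k)) (bT (Q.ver w) k r) := rfl
    have h4 := hx w hw
    rw [h2] at h4
    linarith
  · have h5 : 0 ≤ a * (cc m + e') := by positivity
    have h6 : 0 ≤ η * k := by positivity
    have h7 : (R + η) * k = R * k + η * k := by ring
    linarith

/-- Collecting the constants. -/
theorem collect (a C₁ E2 K1 K3 G e' Rk rk : ℝ) (n : ℕ) (ha : 0 < a) (hC₁ : 0 ≤ C₁)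
    (hG : 1 ≤ G) (h1 : e' ≤ E2 * G)
    (h : Rk ≤ 2 * 2 ^ n * (K1 * G) + e' + a * (2 ^ n * (C₁ * (2 * 2 ^ n * (K3 * G))) +
      C₁ * (n * (E2 + 2) * G) + rk + C₁)) :
    Rk ≤ (2 ^ (n + 2) + (2 * 2 ^ n * K1 + E2 + a * (2 ^ n * (C₁ * (2 * 2 ^ n * K3)) +
    C₁ * (n * (E2 + 2)) + C₁))) * G + a * rk := by
  have h2 : C₁ ≤ C₁ * G := le_mul_of_one_le_right hC₁ hG
  have h3 : a * C₁ ≤ a * (C₁ * G) := mul_le_mul_of_nonneg_left h2 ha.le
  have h5 : 0 ≤ (2 : ℝ) ^ (n + 2) * G := by positivity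
  have h6 : (2 ^ (n + 2) + (2 * 2 ^ n * K1 + E2 + a * (2 ^ n * (C₁ * (2 * 2 ^ n * K3)) +
    C₁ * (n * (E2 + 2)) + C₁))) * G + a * rk = 2 ^ (n + 2) * G +
      (2 * 2 ^ n * (K1 * G) + E2 * G + a * (2 ^ n * (C₁ * (2 * 2 ^ n * (K3 * G))) +
      C₁ * (n * (E2 + 2) * G) + rk) + a * (C₁ * G)) := by ring
  rw [h6]
  have h7 : a * (2 ^ n * (C₁ * (2 * 2 ^ n * (K3 * G))) + C₁ * (n * (E2 + 2) * G) + rk + C₁) =
      a * (2 ^ n * (C₁ * (2 * 2 ^ n * (K3 * G))) + C₁ * (n * (E2 + 2) * G) + rk) + a * C₁ := by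
    ring
  rw [h7] at h
  linarith

end CTP

open CTP in
theorem ct (hCO : COStmt) (hCU : CUStmt) (hPG : PGStmt) (hSX : SXStmt) : CTStmt := by
  intro m n a ρ hn ha hρ hKQ
  obtain ⟨C₁, hC₁, k₁, hS⟩ := hSX m n ρ hn hρ
  have ha0 : 0 < a := by linarith
  have ha1 : 0 < a - 1 := by linarith
  have hc := cc_nonneg m
  obtain ⟨E2, hE2⟩ : ∃ E2 : ℝ, E2 = 2 ^ (n + 1) := ⟨_, rfl⟩
  have hE20 : 0 ≤ E2 := by rw [hE2]; positivity
  obtain ⟨K1, hK1⟩ : ∃ K1 : ℝ, K1 = 3 + (2 * a + 1) * cc m + a * E2 := ⟨_, rfl⟩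
  have hK10 : 0 ≤ K1 := by rw [hK1]; positivity
  obtain ⟨K3, hK3⟩ : ∃ K3 : ℝ, K3 = (2 + m + cc m + E2 + K1 + 2 * a * cc m) / (a - 1) +
    (K1 + 2 * a * cc m) / a + cc m := ⟨_, rfl⟩
  have hK30 : 0 ≤ K3 := by rw [hK3]; positivity
  have hC00 : 0 ≤ 2 * 2 ^ n * K1 + E2 + a * (2 ^ n * (C₁ * (2 * 2 ^ n * K3)) +
    C₁ * (n * (E2 + 2)) + C₁) := by positivity
  refine ⟨2 ^ (n + 2) + (2 * 2 ^ n * K1 + E2 + a * (2 ^ n * (C₁ * (2 * 2 ^ n * K3)) +
    C₁ * (n * (E2 + 2)) + C₁)), by positivity, k₁, ?_⟩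
  obtain ⟨C0, hC0⟩ : ∃ C0 : ℝ, C0 = 2 * 2 ^ n * K1 + E2 + a * (2 ^ n * (C₁ * (2 * 2 ^ n * K3)) +
    C₁ * (n * (E2 + 2)) + C₁) := ⟨_, rfl⟩
  rw [← hC0] at hC00 ⊢
  intro R η ε ε₁ θ₁ e N k hk hN hR hη hε he hG1 hG2 hεN hCe hεs hke hCη F hTm hStk hmax
  have hN' : (1 : ℝ) ≤ N := by exact_mod_cast hN
  have hN0 : (0 : ℝ) < N := by linarith
  have hk0 : (0 : ℝ) ≤ k := Nat.cast_nonneg _
  have hlog0 : 0 ≤ Real.log 2 := Real.log_nonneg (by norm_num)
  have he0 : 0 ≤ e := hlog0.trans he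
  obtain ⟨Q, hQT, hQS, hQD, hQX, hQL⟩ := hCU m (N * k) n F e he0 hTm
  obtain ⟨e', he'⟩ : ∃ e' : ℝ, e' = 2 ^ n * (e + Real.log 2) := ⟨_, rfl⟩
  rw [← he'] at hQT hQD hQL
  have he'0 : 0 ≤ e' := by rw [he']; positivity
  have hE : e' ≤ E2 * e := by
    have h1 : E2 * e = 2 ^ n * (e + e) := by rw [hE2, pow_succ]; ring
    rw [h1, he']
    exact mul_le_mul_of_nonneg_left (by linarith) (by positivity)
  have hpow : (2 : ℝ) ^ (n + 2) = E2 + E2 := by rw [hE2, pow_succ]; ring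
  have hCe' : e' ≤ (2 ^ (n + 2) + C0) * e := by
    refine hE.trans (mul_le_mul_of_nonneg_right ?_ he0)
    rw [hpow]
    linarith
  have hCe2 : e' ≤ η / 2 * (N * k) := by
    have h1 : 2 * (E2 * e) ≤ (2 ^ (n + 2) + C0) * e := by
      rw [hpow]
      nlinarith
    have h2 : η / 2 * (N * k) = (η * (N * k)) / 2 := by ring
    rw [h2]
    linarith
  have h2 : ((N : ℝ) + 1) * e' ≤ (N + 1) * ((2 ^ (n + 2) + C0) * e) :=
    mul_le_mul_of_nonneg_left hCe' (by positivity)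
  have hver := vertex hCO m n a ha R η ε ε₁ θ₁ e' N k hN he'0 hG1 hG2 hεN
    (hCe'.trans hCe) hεs (by linarith) hCe2 F Q hQT (hQS ε hStk) hQD hQX hmax
  obtain ⟨r, hr, hPr⟩ := hPG (Finset ℕ) (Finset.range n).powerset N
    (fun w r => (R + η) * k + a * (cc m + e') - vT a (Q.ver w) k r)
    (fun w r => hT (Q.ver w) k r) (B1 m a η ε e' N k) (B3T m a η ε e' N k) hN
    (fun w hw => (hver w hw).1) (fun w hw => (hver w hw).2.2.1) (fun w hw => (hver w hw).2.1)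
    (fun w hw => (hver w hw).2.2.2)
  have hcard : (((Finset.range n).powerset.card : ℕ) : ℝ) = 2 ^ n := by
    rw [Finset.card_powerset, Finset.card_range]
    push_cast
    rfl
  rw [hcard] at hPr
  obtain ⟨G, hG⟩ : ∃ G : ℝ, G = η * k + ε * N * k + k / N + e + 1 + Real.log (N * k + 2) :=
    ⟨_, rfl⟩
  have g1 : 0 ≤ η * k := by positivity
  have g2 : 0 ≤ ε * N * k := by positivity
  have g3 : 0 ≤ (k : ℝ) / N := by positivity
  have g6 : 0 ≤ Real.log ((N : ℝ) * k + 2) := by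
    apply Real.log_nonneg
    have : 0 ≤ (N : ℝ) * k := by positivity
    linarith
  obtain ⟨hb1, hb3⟩ := err m a η ε e e' E2 N k ha hN hE hE20 G (by linarith)
    (by linarith) (by linarith) (by linarith) (by linarith)
  rw [← hK1] at hb1 hb3
  rw [← hK3] at hb3
  have hG0 : 1 ≤ G := by linarith
  have hEG : e' ≤ E2 * G := hE.trans (mul_le_mul_of_nonneg_left (by linarith) hE20)
  have hlam : ∑ i ∈ Finset.range n, Q.lam i ≤ n * (E2 + 2) * G := by
    have h1 : ∀ i ∈ Finset.range n, Q.lam i ≤ (E2 + 2) * G := by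
      intro i hi
      have h2 := hQL i (Finset.mem_range.1 hi)
      have h3 : Real.log (((N * k : ℕ) : ℝ) + 2) = Real.log ((N : ℝ) * k + 2) := by
        push_cast
        rfl
      rw [h3] at h2
      have h5 : Real.log ((N : ℝ) * k + 2) ≤ G := by linarith
      have h6 : (E2 + 2) * G = E2 * G + G + G := by ring
      linarith
    refine (Finset.sum_le_card_nsmul _ _ _ h1).trans (le_of_eq ?_)
    rw [Finset.card_range, nsmul_eq_mul]
    ring
  have hxw : ∀ w ∈ (Finset.range n).powerset,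
      (R + η) * k + a * (cc m + e') - vT a (Q.ver w) k r ≤ 2 * 2 ^ n * (K1 * G) := by
    intro w hw
    refine (hPr w hw).1.trans ?_
    rw [mul_div_assoc]
    exact mul_le_mul_of_nonneg_left hb1 (by positivity)
  have hhw : ∀ w ∈ (Finset.range n).powerset, hT (Q.ver w) k r ≤ 2 * 2 ^ n * (K3 * G) := by
    intro w hw
    refine (hPr w hw).2.trans ?_
    rw [mul_div_assoc]
    exact mul_le_mul_of_nonneg_left hb3 (by positivity)
  have key := window m n a ρ ha hρ hKQ C₁ hC₁ R η e' N k r hη he'0 Q hQT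
    (2 * 2 ^ n * (K1 * G)) (2 * 2 ^ n * (K3 * G)) (n * (E2 + 2) * G) (by positivity)
    (by positivity) hxw hhw hlam (hS k hk N Q r hr)
  have hfin := collect a C₁ E2 K1 K3 G e' (R * k) (ρ * k) n ha0 hC₁ hG0 hEG key
  rw [← hC0, hG] at hfin
  rw [mul_assoc a ρ]
  exact hfin

end Pool.STE
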