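import Pool.Agent.H90.STE.Stmts

/-!
# STE, row TP: properties of the sum of `2 ^ n` independent copies
-/

set_option autoImplicit false

namespace Pool.STE

open Finset Real
open Pool.Agent.H49.Ent Pool.Agent.H32.Dense Pool.STK Pool.KA

namespace TPP

theorem evq_TQ {Ω : Type} {m n : ℕ} (A : Ω → QL m n) (w : Finset (Fin n))
    (v : Finset (Fin n) → Ω) : evq w (TQ A v) = ∑ x, (1 : ℤ) • evq w (A (v x)) := by
  unfold evq TQ
  rw [Prod.fst_sum, Prod.snd_sum]
  have h1 : ∀ i : Fin n, (∑ x, (A (v x)).2) i = ∑ x, (A (v x)).2 i := fun i => by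
    rw [Finset.sum_apply]
  rw [Finset.sum_congr rfl fun i _ => h1 i, Finset.sum_comm, ← Finset.sum_add_distrib]
  exact Finset.sum_congr rfl fun x _ => (one_smul ℤ _).symm

theorem card_real (n : ℕ) : (∑ _x : Finset (Fin n), |(((1 : ℤ)) : ℝ)|) = 2 ^ n := by
  simp

end TPP

open TPP in
theorem tp (hPRD : PRDStmt) (hCTS : CTSStmt) (hSUM : SUMStmt) : TPStmt := by
  intro m n Ω₀ Ω _ _ p₀ p A hp₀ hp
  refine ⟨(hPRD Ω (Finset (Fin n)) Unit p hp).1, ?_, ?_, ?_, ?_⟩
  · intro x C w hC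
    have h := hCTS Ω₀ Ω (Finset (Fin n)) (Fin m → ℤ) p₀ p x (fun ω => evq w (A ω)) C
      (fun _ => 1) hp₀ hp hC
    rw [card_real] at h
    have he : (fun v : Finset (Fin n) → Ω => evq w (TQ A v)) =
        fun v => ∑ x, (1 : ℤ) • evq w (A (v x)) := funext fun v => evq_TQ A w v
    rw [he]
    exact h
  · intro i
    have h := hSUM Ω (Finset (Fin n)) Unit (Fin m → ℤ) p (fun ω => (A ω).2 i)
      (fun _ => 1) (fun _ => (∅ : Finset (Fin n))) hp (fun _ _ _ => rfl)
    have hm := (hPRD Ω Unit Unit p hp).2.1 ()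
    have h1 : H (prd p : (Unit → Ω) → ℝ) (fun w => ∑ j : Unit, (1 : ℤ) • (A (w j)).2 i) =
        H p (fun ω => (A ω).2 i) := by
      rw [← hm.H (fun ω => (A ω).2 i)]
      have : (fun w : Unit → Ω => ∑ j : Unit, (1 : ℤ) • (A (w j)).2 i) =
          fun w => (A (w ())).2 i := by
        funext w
        simp
      rw [this]
    have h2 : (fun v : Finset (Fin n) → Ω => (TQ A v).2 i) =
        fun v => ∑ x, (1 : ℤ) • (A (v x)).2 i := by
      funext v
      unfold TQ
      rw [Prod.snd_sum, Finset.sum_apply]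
      exact Finset.sum_congr rfl fun x _ => (one_smul ℤ _).symm
    rw [h2, ← h1]
    exact h
  · intro M hM v c
    have hcard : ((Finset.univ : Finset (Finset (Fin n))).card : ℝ) = 2 ^ n := by simp
    have key : ∀ B : Ω → Fin m → ℤ, (∀ ω, |(B ω c : ℝ)| ≤ M) →
        |((∑ x : Finset (Fin n), B (v x)) c : ℝ)| ≤ 2 ^ n * M := by
      intro B hB
      rw [Finset.sum_apply, Int.cast_sum]
      refine (Finset.abs_sum_le_sum_abs _ _).trans ?_
      refine (Finset.sum_le_card_nsmul _ _ M fun x _ => hB (v x)).trans (le_of_eq ?_)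
      rw [nsmul_eq_mul, hcard]
    unfold TQ
    rw [Prod.fst_sum, Prod.snd_sum]
    refine ⟨key (fun ω => (A ω).1) (fun ω => (hM ω c).1), fun i => ?_⟩
    rw [Finset.sum_apply]
    exact key (fun ω => (A ω).2 i) (fun ω => (hM ω c).2 i)
  · intro h y E hE v i c
    have hcard : ((Finset.univ : Finset (Finset (Fin n))).card : ℝ) = 2 ^ n := by simp
    have h1 : (((TQ A v).2 i c : ℤ) : ℝ) - h i * (∑ x, y (v x)) c =
        ∑ x : Finset (Fin n), (((A (v x)).2 i c : ℝ) - h i * y (v x) c) := by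
      unfold TQ
      rw [Prod.snd_sum, Finset.sum_apply, Finset.sum_apply, Int.cast_sum, Finset.sum_apply,
        Finset.mul_sum, Finset.sum_sub_distrib]
    show |(((TQ A v).2 i c : ℤ) : ℝ) - h i * (∑ x, y (v x)) c| ≤ 2 ^ n * E
    rw [h1]
    refine (Finset.abs_sum_le_sum_abs _ _).trans ?_
    refine (Finset.sum_le_card_nsmul _ _ E fun x _ => hE (v x) i c).trans (le_of_eq ?_)
    rw [nsmul_eq_mul, hcard]

end Pool.STE
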